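import Pool.Agent.Y966.LD.Main3c

/-!
The number of integers with exactly `L` Collatz steps grows like `((3 + √21) / 6)^L`, and almost all of
them have `l(n) / log n` close to an explicit constant.
-/

set_option autoImplicit false

namespace Pool.Agent.Results.MP_e43fce_nt.LevelGrowth

open Filter Topology

/-- The Collatz function. -/
def C (n : ℕ) : ℕ := if n % 2 = 0 then n / 2 else 3 * n + 1

/-- `l(n) = L`: the least `k ≥ 0` with `C^(k)(n) = 1` exists and is `L`. -/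
def IsStoppingTime (n L : ℕ) : Prop := IsLeast {k : ℕ | C^[k] n = 1} L

/-- `λ = (3 + √21) / 6 = 1.26376...` -/
noncomputable def lam : ℝ := (3 + Real.sqrt 21) / 6

/-- `a = (2 λ - 1) / (λ log 2 - (λ - 1) log 3) = 2.6058...` -/
noncomputable def a : ℝ := (2 * lam - 1) / (lam * Real.log 2 - (lam - 1) * Real.log 3)

/-- For every `L` the set `{n : l(n) = L}` is finite; for every `ε > 0` its number of elements lies
between `λ^((1 - ε) L)` and `λ^((1 + ε) L)` for all large `L`, with `λ = (3 + √21) / 6`, so that the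
`L`-th root of the number of `n` with `l(n) = L` converges to `λ`; and for every `η > 0` all but a
proportion `exp (-c L)` of the `n` with `l(n) = L` satisfy `|l(n) / log n - a| ≤ η`. -/
theorem result :
    (∀ L : ℕ, {n : ℕ | IsStoppingTime n L}.Finite) ∧
    (∀ ε : ℝ, 0 < ε → ∃ L₀ : ℕ, ∀ L : ℕ, L₀ ≤ L →
      lam ^ ((1 - ε) * (L : ℝ)) ≤ ({n : ℕ | IsStoppingTime n L}.ncard : ℝ) ∧
        ({n : ℕ | IsStoppingTime n L}.ncard : ℝ) ≤ lam ^ ((1 + ε) * (L : ℝ))) ∧
    Tendsto (fun L : ℕ => ({n : ℕ | IsStoppingTime n L}.ncard : ℝ) ^ (1 / (L : ℝ))) atTop (𝓝 lam) ∧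
    (∀ η : ℝ, 0 < η → ∃ c : ℝ, 0 < c ∧ ∃ L₀ : ℕ, ∀ L : ℕ, L₀ ≤ L →
      ({n : ℕ | IsStoppingTime n L ∧ η < |(L : ℝ) / Real.log n - a|}.ncard : ℝ) ≤
        Real.exp (-(c * L)) * ({n : ℕ | IsStoppingTime n L}.ncard : ℝ)) := by
  have hgrow : ∀ ε : ℝ, 0 < ε → ∃ L₀ : ℕ, ∀ L : ℕ, L₀ ≤ L →
      lam ^ ((1 - ε) * (L : ℝ)) ≤ ({n : ℕ | IsStoppingTime n L}.ncard : ℝ) ∧
        ({n : ℕ | IsStoppingTime n L}.ncard : ℝ) ≤ lam ^ ((1 + ε) * (L : ℝ)) :=
    fun ε hε => Pool.Agent.Y966.LD.growth_C hε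
  refine ⟨fun L => Pool.Agent.Y966.LD.CL_finite L, hgrow, ?_,
    fun η hη => Pool.Agent.Y966.LD.concentration_C hη⟩
  have hb := Pool.Agent.Y966.LD.lam_bounds
  have hlam1 : 1 < lam := by
    have h1 : (1.263 : ℝ) < lam := hb.1
    norm_num at h1
    linarith
  have hlam0 : 0 < lam := by linarith
  -- the two powers converge to `lam`
  rw [tendsto_order]
  have hcont : ∀ s : ℝ, Tendsto (fun ε : ℝ => lam ^ (1 + s * ε)) (𝓝[>] 0) (𝓝 lam) := by
    intro s
    have h1 : Tendsto (fun ε : ℝ => lam ^ (1 + s * ε)) (𝓝 0) (𝓝 (lam ^ (1 + s * (0 : ℝ)))) := by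
      apply Tendsto.rpow tendsto_const_nhds
      · exact (continuous_const.add (continuous_const.mul continuous_id)).tendsto 0
      · exact Or.inl hlam0.ne'
    rw [mul_zero, add_zero, Real.rpow_one] at h1
    exact h1.mono_left nhdsWithin_le_nhds
  have hroot : ∀ (L : ℕ) (e : ℝ), 1 ≤ L → (lam ^ (e * (L : ℝ))) ^ (1 / (L : ℝ)) = lam ^ e := by
    intro L e hL
    have hL0 : (L : ℝ) ≠ 0 := by
      have : 0 < L := hL
      positivity
    rw [← Real.rpow_mul hlam0.le]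
    congr 1
    field_simp
  constructor
  · intro x hx
    have h1 := (hcont (-1)).eventually (lt_mem_nhds hx)
    obtain ⟨ε, hε1, hε2⟩ := (h1.and self_mem_nhdsWithin).exists
    obtain ⟨L₀, hL₀⟩ := hgrow ε hε2
    filter_upwards [eventually_ge_atTop (max L₀ 1)] with L hL
    have hL1 : 1 ≤ L := (le_max_right _ _).trans hL
    have h2 := (hL₀ L ((le_max_left _ _).trans hL)).1
    have h3 := Real.rpow_le_rpow (Real.rpow_nonneg hlam0.le _) h2
      (show (0 : ℝ) ≤ 1 / (L : ℝ) by positivity)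
    rw [hroot L (1 - ε) hL1] at h3
    refine lt_of_lt_of_le hε1 (le_trans (le_of_eq ?_) h3)
    congr 1
    ring
  · intro x hx
    have h1 := (hcont 1).eventually (gt_mem_nhds hx)
    obtain ⟨ε, hε1, hε2⟩ := (h1.and self_mem_nhdsWithin).exists
    obtain ⟨L₀, hL₀⟩ := hgrow ε hε2
    filter_upwards [eventually_ge_atTop (max L₀ 1)] with L hL
    have hL1 : 1 ≤ L := (le_max_right _ _).trans hL
    have h2 := (hL₀ L ((le_max_left _ _).trans hL)).2
    have h3 := Real.rpow_le_rpow (Nat.cast_nonneg _) h2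
      (show (0 : ℝ) ≤ 1 / (L : ℝ) by positivity)
    rw [hroot L (1 + ε) hL1] at h3
    refine lt_of_le_of_lt (h3.trans (le_of_eq ?_)) hε1
    congr 1
    ring

end Pool.Agent.Results.MP_e43fce_nt.LevelGrowth
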