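import Mathlib
import Pool.Agent.Y964.LW.C4
import Pool.Agent.Y964.LW.C5

set_option autoImplicit false

/-!
The total stopping times `l(n)` of the Collatz function and the exceptions `l(n) > n`, along sparse
multiplicative sets and multiplicative functions.

The sets `E` here have density zero (like the sums of two squares, `E(N) ~ K N / √(log N)`, or the
integers composed of primes from a set of positive relative density). All errors are relative to the
number of elements of `E`, respectively to the sum of a multiplicative majorant.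
-/

namespace Pool.Agent.Results.MP_e43fce_nt.LevelsInSemigroups

open Filter Topology Finset

/-- the Collatz function -/
def C (n : ℕ) : ℕ := if n % 2 = 0 then n / 2 else 3 * n + 1

/-- `l` is the total stopping time `l(n)` of `n` -/
def IsTotalStoppingTime (n l : ℕ) : Prop := C^[l] n = 1 ∧ ∀ j < l, C^[j] n ≠ 1

/-- the number of odd terms among `n, C n, ..., C^(k-1) n` -/
def odds (k n : ℕ) : ℕ := ((Finset.range k).filter fun i => C^[i] n % 2 = 1).card

/-- `l(n) > n`, where `l(n) = ∞` is allowed: an exception to `l(n) ≤ n`. -/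
def Exception (n : ℕ) : Prop := ∀ l : ℕ, IsTotalStoppingTime n l → n < l

/-- the positive integers with the property `P` have the natural density `δ` -/
def HasDensity (P : ℕ → Prop) (δ : ℝ) : Prop :=
  Tendsto (fun N : ℕ => ({n : ℕ | 1 ≤ n ∧ n ≤ N ∧ P n}.ncard : ℝ) / N) atTop (𝓝 δ)

/-- `3 / log (4/3) * log n + x * log 6 * √(2 log n / (log (4/3))^3)` -/
noncomputable def bound (x : ℝ) (n : ℕ) : ℝ :=
  3 / Real.log (4 / 3) * Real.log n
    + x * (Real.log 6 * Real.sqrt (2 * Real.log n / Real.log (4 / 3) ^ 3))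

/-- The distribution function of the standard normal law. -/
noncomputable def Phi (x : ℝ) : ℝ :=
  ProbabilityTheory.cdf (ProbabilityTheory.gaussianReal 0 1) x

/-- `l(n)` is finite, at most `bound x n` and `≡ a` modulo `m`, and the number of odd terms before `1`
is `≡ b` modulo `m`. -/
def Level (m : ℕ) (a b : ℤ) (x : ℝ) (n : ℕ) : Prop :=
  ∃ l : ℕ, (l : ℝ) ≤ bound x n ∧ IsTotalStoppingTime n l ∧ (l : ℤ) ≡ a [ZMOD m] ∧ (odds l n : ℤ) ≡ b [ZMOD m]

/-- `∑_{p ≤ x} h p ≥ c x / log x` for all `x ≥ x₀` (sum over primes). -/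
def PrimeMean (c : ℝ) (x₀ : ℕ) (h : ℕ → ℝ) : Prop :=
  ∀ x : ℕ, x₀ ≤ x → c * (x / Real.log x) ≤ ∑ p ∈ (Icc 1 x).filter Nat.Prime, h p

open scoped Classical in
/-- THE RELATIVE FREQUENCY of the property `P` is `l` for all bounded multiplicative functions over all
multiplicative majorants with many primes: for all `c > 0`, `x₀`, `ε > 0`, `Q ≥ 1` and `r` prime to `Q`
there is `N₀` such that for all `N ≥ N₀`, for all multiplicative `h` with values in `[0, 1]` and
`∑_{p ≤ x} h p ≥ c x / log x` for `x ≥ x₀`, and all multiplicative `g` with `|g| ≤ h`, the sum of `g n`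
over the `n ≤ N` with `n ≡ r` modulo `Q` and the property `P` is `l` times the sum over all `n ≤ N` with
`n ≡ r` modulo `Q`, up to `ε ∑_{n ≤ N} h n`. -/
def Relative (P : ℕ → Prop) (l : ℝ) : Prop := ∀ (c : ℝ) (x₀ : ℕ) (ε : ℝ) (Q r : ℕ), 0 < c → 0 < ε →
  1 ≤ Q → r.Coprime Q → ∃ N₀ : ℕ, ∀ N : ℕ, N₀ ≤ N → ∀ h : ArithmeticFunction ℝ, h.IsMultiplicative →
    (∀ n, 0 ≤ h n ∧ h n ≤ 1) → PrimeMean c x₀ h →
    ∀ g : ArithmeticFunction ℂ, g.IsMultiplicative → (∀ n, ‖g n‖ ≤ h n) →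
    ‖∑ n ∈ (Icc 1 N).filter (fun n => n % Q = r % Q ∧ P n), g n -
      l * ∑ n ∈ (Icc 1 N).filter (fun n => n % Q = r % Q), g n‖ ≤ ε * ∑ n ∈ Icc 1 N, h n

/-- `E` contains at least `c x / log x` primes `p ≤ x`, for all `x ≥ x₀`. -/
def ManyPrimes (c : ℝ) (x₀ : ℕ) (E : Set ℕ) : Prop :=
  ∀ x : ℕ, x₀ ≤ x → c * (x / Real.log x) ≤ {p : ℕ | p.Prime ∧ p ≤ x ∧ p ∈ E}.ncard

/-- `E` is a multiplicative set of positive integers: it contains `1`, and the product of coprime
integers is in `E` if and only if both factors are. -/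
def MultSet (E : Set ℕ) : Prop :=
  0 ∉ E ∧ 1 ∈ E ∧ ∀ m n : ℕ, m.Coprime n → (m * n ∈ E ↔ m ∈ E ∧ n ∈ E)

/-- The positive sums of two squares. -/
def TwoSquares : Set ℕ := {n | 1 ≤ n ∧ ∃ x y : ℕ, n = x ^ 2 + y ^ 2}

/-- The positive integers all of whose prime factors are congruent modulo `q` to elements of `A`. -/
def PrimesIn (q : ℕ) (A : Set ℕ) : Set ℕ := {n | 1 ≤ n ∧ ∀ p : ℕ, p.Prime → p ∣ n → ∃ a ∈ A, p % q = a % q}

open Pool.Agent.Y964.LW in
theorem rel_of {P : ℕ → Prop} {l : ℝ} (h : RL P l) : Relative P l := RL_full h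

theorem hit (n l : ℕ) (hn : 1 ≤ n) : IsTotalStoppingTime n l ↔
    ∃ k, Pool.Agent.H499R2.HL.H k n ∧ l = k + Pool.Agent.H499R2.LT.odn k n :=
  Pool.Agent.Y964.LW.hitC hn

theorem fin_iff (n : ℕ) (hn : 1 ≤ n) : (∃ l, IsTotalStoppingTime n l) ↔ ∃ k, Pool.Agent.H499R2.HL.H k n := by
  constructor
  · rintro ⟨l, hl⟩
    obtain ⟨k, hk, _⟩ := (hit n l hn).1 hl
    exact ⟨k, hk⟩
  · rintro ⟨k, hk⟩
    exact ⟨_, (hit n _ hn).2 ⟨k, hk, rfl⟩⟩

/-- THE EXCEPTIONS `l(n) > n` AND THE LIMIT LAW OF `l(n)` ALONG MULTIPLICATIVE SETS AND FUNCTIONS.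
Let `δ > 0` be the natural density of the positive integers with finite `l(n)` (`δ = 1` if and only if
`l(n)` is always finite). In the sense of `Relative` (sums of multiplicative functions `g`, `|g| ≤ h`,
over the integers `n ≤ N`, in the reduced residue classes modulo `Q`, with errors `o(∑ h)`, uniformly
in `g` and `h`):
(1) the exceptions, i.e. the `n` with `l(n) > n` or `l(n) = ∞`, have frequency `1 - δ`, and so have the
`n` with `l(n) = ∞`;
(2) the `n` with `l(n) ≤ 3 / log (4/3) log n + x log 6 √(2 log n / (log (4/3))^3)`, `l(n) ≡ a` and number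
of odd terms before `1` `≡ b` modulo `m` have frequency `δ Φ(x) / m²`, `Φ` the standard normal
distribution function;
(3) for every `η > 0` the `n` with `|l(n) / log n - 3 / log (4/3)| ≤ η` have frequency `δ`.
(4) SETS. Let `P` have the relative frequency `l`. For all `c > 0`, `x₀`, `ε > 0`, `Q`, `r` prime to `Q`
and `N ≥ N₀`, for every multiplicative set `E` of positive integers with at least `c x / log x` primes
up to `x` for `x ≥ x₀`, the number of the `n ≤ N` in `E` with `P` and `n ≡ r` modulo `Q` is `l` times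
the number of the `n ≤ N` in `E` with `n ≡ r` modulo `Q`, up to `ε` times the number of all `n ≤ N` in
`E` (uniformly in `E`); and `P` has relative density `l` in `E`.
(5) The sums of two squares, and the integers composed of primes in given residue classes modulo `q`
(at least one of them prime to `q`), are such sets `E`. -/
theorem result : ∃ δ : ℝ, 0 < δ ∧ δ ≤ 1 ∧ (δ = 1 ↔ ∀ n : ℕ, 1 ≤ n → ∃ l, IsTotalStoppingTime n l) ∧
    HasDensity (fun n => ∃ l, IsTotalStoppingTime n l) δ ∧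
    Relative Exception (1 - δ) ∧
    Relative (fun n => ¬ ∃ l, IsTotalStoppingTime n l) (1 - δ) ∧
    (∀ (m : ℕ) (a b : ℤ) (x : ℝ), 1 ≤ m → Relative (Level m a b x) (δ * Phi x / m ^ 2)) ∧
    (∀ η : ℝ, 0 < η → Relative (fun n => ∃ l : ℕ, IsTotalStoppingTime n l ∧
      |(l : ℝ) / Real.log n - 3 / Real.log (4 / 3)| ≤ η) δ) ∧
    (∀ (P : ℕ → Prop) (l : ℝ), Relative P l →
      (∀ (c : ℝ) (x₀ : ℕ) (ε : ℝ) (Q r : ℕ), 0 < c → 0 < ε → 1 ≤ Q → r.Coprime Q →
        ∃ N₀ : ℕ, ∀ N : ℕ, N₀ ≤ N → ∀ E : Set ℕ, MultSet E → ManyPrimes c x₀ E →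
        |({n : ℕ | n ≤ N ∧ n ∈ E ∧ n % Q = r % Q ∧ P n}.ncard : ℝ) -
          l * {n : ℕ | n ≤ N ∧ n ∈ E ∧ n % Q = r % Q}.ncard| ≤ ε * {n : ℕ | n ≤ N ∧ n ∈ E}.ncard) ∧
      (∀ (c : ℝ) (x₀ : ℕ) (E : Set ℕ), 0 < c → MultSet E → ManyPrimes c x₀ E →
        Tendsto (fun N : ℕ => ({n : ℕ | n ≤ N ∧ n ∈ E ∧ P n}.ncard : ℝ) / {n : ℕ | n ≤ N ∧ n ∈ E}.ncard)
          atTop (𝓝 l))) ∧
    (MultSet TwoSquares ∧ ∃ c : ℝ, 0 < c ∧ ∃ x₀ : ℕ, ManyPrimes c x₀ TwoSquares) ∧
    (∀ (q a : ℕ) (A : Set ℕ), 1 ≤ q → a ∈ A → a.Coprime q → MultSet (PrimesIn q A) ∧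
      ∃ c : ℝ, 0 < c ∧ ∃ x₀ : ℕ, ManyPrimes c x₀ (PrimesIn q A)) := by
  obtain ⟨δ, h0, h1, h2, h3, h4, h5⟩ := Pool.Agent.Y964.LW.rel_laws
  have hH : Pool.Agent.Y964.LW.RL (fun n => ∃ l, IsTotalStoppingTime n l) δ :=
    Pool.Agent.Y964.LW.RL_congr 1 (fun n hn => (fin_iff n hn).symm) h4
  have hll : ∀ η : ℝ, 0 < η → Pool.Agent.Y964.LW.RL (fun n => ∃ l : ℕ, IsTotalStoppingTime n l ∧
      |(l : ℝ) / Real.log n - 3 / Real.log (4 / 3)| ≤ η) δ := by
    intro η hη
    have hrr := Pool.Agent.H499R2.HL.rr_pos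
    have hl6 : 0 < Real.log 6 := Real.log_pos (by norm_num)
    have h6 := Pool.Agent.Y964.LW.lln (f := fun k n => ((k + Pool.Agent.H499R2.LT.odn k n : ℕ) : ℝ))
      (α := 3 / Real.log (4 / 3))
      (σ := Real.log 6 * Pool.Agent.H499R2.HL.rr) (δ := δ) (η := η) (by positivity) h0.le h1 hη (fun x => by
        have h7 := ((h5 1 0 0 le_rfl).2.2 x).2.1
        have e1 : δ / ((1 : ℕ) : ℝ) ^ 2 * Pool.Agent.H499R2.ND.Phi x = δ * Pool.Agent.H499R2.ND.Phi x := by simp
        rw [e1] at h7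
        refine Pool.Agent.Y964.LW.RL_congr 0 (fun n _ => exists_congr fun k => and_congr_right fun _ => ?_) h7
        rw [← Pool.Agent.Y964.LW.bc_thr]
        simp [Int.modEq_one]) h4
    refine Pool.Agent.Y964.LW.RL_congr 2 (fun n hn => ?_) h6
    have hL : 0 < Real.log n := Real.log_pos (by exact_mod_cast (by omega : 1 < n))
    have e : ∀ t : ℕ, |(t : ℝ) - 3 / Real.log (4 / 3) * Real.log n| ≤ η * Real.log n ↔
        |(t : ℝ) / Real.log n - 3 / Real.log (4 / 3)| ≤ η := by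
      intro t
      have e1 : (t : ℝ) - 3 / Real.log (4 / 3) * Real.log n =
          ((t : ℝ) / Real.log n - 3 / Real.log (4 / 3)) * Real.log n := by field_simp
      rw [e1, abs_mul, abs_of_pos hL]
      exact mul_le_mul_iff_left₀ hL
    constructor
    · rintro ⟨k, hk, h8⟩
      exact ⟨_, (hit n _ (by omega)).2 ⟨k, hk, rfl⟩, (e _).1 h8⟩
    · rintro ⟨l, hl, h8⟩
      obtain ⟨k, hk, rfl⟩ := (hit n l (by omega)).1 hl
      exact ⟨k, hk, (e _).2 h8⟩
  refine ⟨δ, h0, h1, ?_, ?_, ?_, ?_, fun m a b x hm => ?_,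
    fun η hη => rel_of (hll η hη), fun P l hP => ⟨?_, ?_⟩, ?_, ?_⟩
  · rw [h2]
    refine forall₂_congr fun n hn => ?_
    rw [fin_iff n hn]
    exact Pool.Agent.Y964.LW.hit_iff n
  · refine Pool.Agent.H499R2.LT.Dn_iff (fun n hn => ?_) h3
    rw [fin_iff n hn]
    exact Pool.Agent.Y964.LW.hit_iff n
  · apply rel_of
    have tl : Tendsto (fun n : ℕ => Real.log n / n) atTop (𝓝 0) := by
      have := Real.isLittleO_log_id_atTop.tendsto_div_nhds_zero
      exact this.comp tendsto_natCast_atTop_atTop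
    have hnu : 0 < Real.log (4 / 3) := Real.log_pos (by norm_num)
    obtain ⟨n0, hn0⟩ := eventually_atTop.1 ((tl.const_mul (3 / Real.log (4 / 3) + 1)).eventually_lt_const
      (show (3 / Real.log (4 / 3) + 1) * 0 < 1 by rw [mul_zero]; exact one_pos))
    refine Pool.Agent.Y964.LW.RL_squeeze fun ζ hζ =>
      ⟨fun n => ¬ ∃ l, IsTotalStoppingTime n l, fun n => ¬ ∃ l : ℕ, IsTotalStoppingTime n l ∧
        |(l : ℝ) / Real.log n - 3 / Real.log (4 / 3)| ≤ 1, 1 - δ, 1 - δ, n0 + 2, fun n _ h => ?_,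
        fun n hn h => ?_, Pool.Agent.Y964.LW.RL_not hH (fun _ => Iff.rfl),
        Pool.Agent.Y964.LW.RL_not (hll 1 one_pos) (fun _ => Iff.rfl), le_rfl, le_rfl, by linarith⟩
    · intro l hl
      exact absurd ⟨l, hl⟩ h
    · rintro ⟨l, hl, h8⟩
      have h9 := h l hl
      have h10 := hn0 n (by omega)
      have hnR : (0 : ℝ) < n := by exact_mod_cast (by omega : 0 < n)
      have hL : 0 < Real.log n := Real.log_pos (by exact_mod_cast (by omega : 1 < n))
      have h11 := (abs_le.1 h8).2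
      have h12 : (l : ℝ) / Real.log n ≤ 3 / Real.log (4 / 3) + 1 := by linarith
      rw [div_le_iff₀ hL] at h12
      have h13 : (n : ℝ) < l := by exact_mod_cast h9
      rw [← mul_div_assoc, div_lt_one hnR] at h10
      linarith
  · exact rel_of (Pool.Agent.Y964.LW.RL_not hH (fun _ => Iff.rfl))
  · apply rel_of
    have h6 := ((h5 m a b hm).2.2 x).2.1
    have e : δ / (m : ℝ) ^ 2 * Pool.Agent.H499R2.ND.Phi x = δ * Phi x / m ^ 2 := by
      unfold Phi
      rw [← Pool.Agent.H499R2.ND.phi_cdf]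
      ring
    rw [e] at h6
    refine Pool.Agent.Y964.LW.RL_congr 1 (fun n hn => ?_) h6
    constructor
    · rintro ⟨k, hk, g1, g2, g3⟩
      refine ⟨_, g1, (hit n _ hn).2 ⟨k, hk, rfl⟩, g2, ?_⟩
      have : odds (k + Pool.Agent.H499R2.LT.odn k n) n = Pool.Agent.H499R2.LT.odn k n :=
        Pool.Agent.Y964.LW.ocn_run k n
      rw [this]
      exact g3
    · rintro ⟨l, g1, hl, g2, g3⟩
      obtain ⟨k, hk, rfl⟩ := (hit n l hn).1 hl
      have : odds (k + Pool.Agent.H499R2.LT.odn k n) n = Pool.Agent.H499R2.LT.odn k n :=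
        Pool.Agent.Y964.LW.ocn_run k n
      rw [this] at g3
      exact ⟨k, hk, g1, g2, g3⟩
  · intro c x₀ ε Q r hc hε hQ hr
    exact Pool.Agent.Y964.LW.Rel.sets hP c x₀ ε Q r hc hε hQ hr
  · intro c x₀ E hc hE hp
    exact Pool.Agent.Y964.LW.Rel.lim hP c x₀ E hc hE hp
  · exact Pool.Agent.Y964.LW.two_sq (fun n => Iff.rfl)
  · intro q a A hq haA ha
    exact Pool.Agent.Y964.LW.primes_in hq (fun n => Iff.rfl) haA ha

end Pool.Agent.Results.MP_e43fce_nt.LevelsInSemigroups
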