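import Mathlib
import Pool.Agent.Y967.CM.L
import Pool.Agent.Y967.CM.SP
import Pool.Agent.Y967.CM.SQ

set_option autoImplicit false

/-!
# The inequality `l(n) ≤ n` along sparse sequences

The total stopping time `l` of the Collatz function at sparse sequences (primes, polynomial values,
`3 ^ p a`) and at the integers whose trajectory passes near them; exact relations for almost all
Mersenne numbers `2 ^ m - 1`, more generally `2 ^ m a - 1`. Consequence: for almost all `m` the number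
`y = 2 ^ m a - 1` is either no exception to the inequality `l(y) ≤ y` of the question, or a large
one, `l(y) > 2 ^ (V m) y`, where `V` is any function with `V m = o(√ log m / (log log m) ^ 17)`.
-/

namespace Pool.Agent.Results.MP_e43fce_nt.MersenneExceptions

open Filter Topology

/-- The Collatz function. -/
def C (n : ℕ) : ℕ := if n % 2 = 0 then n / 2 else 3 * n + 1

/-- The total stopping time: the least `k` with `C^k n = 1`, and `⊤ = ∞` if there is none. -/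
noncomputable def l (n : ℕ) : ℕ∞ := sInf {k : ℕ∞ | ∃ j : ℕ, C^[j] n = 1 ∧ k = j}

/-- The sequence `x` is spread modulo powers of two: there is `δ > 0` such that for every `ε > 0` there
are `η > 0` and `N₀` such that, for `N ≥ N₀` and `2 ^ t ≤ N ^ δ`, at most `η 2 ^ t` classes modulo `2 ^ t`
contain together at most `ε N` of the integers `x n`, `1 ≤ n ≤ N`. -/
def Spread (x : ℕ → ℤ) : Prop :=
  ∃ δ : ℝ, 0 < δ ∧ ∀ ε : ℝ, 0 < ε → ∃ η : ℝ, 0 < η ∧ ∃ N₀ : ℕ, ∀ N : ℕ, N₀ ≤ N →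
    ∀ t : ℕ, (2 : ℝ) ^ t ≤ (N : ℝ) ^ δ → ∀ A : Finset ℤ, (A.card : ℝ) ≤ η * 2 ^ t →
      (({n | 1 ≤ n ∧ n ≤ N ∧ ∃ a ∈ A, x n ≡ a [ZMOD 2 ^ t]} : Set ℕ).ncard : ℝ) ≤ ε * N

/-- `P n` holds for almost all `n`, in the sense of natural density. -/
def AlmostAll (P : ℕ → Prop) : Prop :=
  Tendsto (fun N : ℕ => (({n | 1 ≤ n ∧ n ≤ N ∧ ¬ P n} : Set ℕ).ncard : ℝ) / N) atTop (𝓝 0)

/-- The range: `W n = √ log n / (log log n) ^ 17`. -/
noncomputable def W (n : ℕ) : ℝ := √ (Real.log n) / (Real.log (Real.log n)) ^ 17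

/-- `V m = o(W m)` (from above). -/
def Small (V : ℕ → ℝ) : Prop := ∀ ε : ℝ, 0 < ε → ∀ᶠ m : ℕ in atTop, V m ≤ ε * W m

open Pool.Agent.Y967.CM

theorem ncard_eq (P : ℕ → Prop) [DecidablePred P] (N : ℕ) :
    ({n | 1 ≤ n ∧ n ≤ N ∧ P n} : Set ℕ).ncard = ((Finset.Icc 1 N).filter P).card := by
  rw [← Set.ncard_coe_finset]
  congr 1
  ext n
  simp only [Set.mem_ofPred_eq, Finset.coe_filter, Finset.mem_Icc, and_assoc]

theorem spread_iff (x : ℕ → ℤ) : Spread x ↔ Pool.Agent.Y967.CM.Spread x := by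
  classical
  have key : ∀ (N t : ℕ) (A : Finset ℤ),
      (({n | 1 ≤ n ∧ n ≤ N ∧ ∃ a ∈ A, x n ≡ a [ZMOD 2 ^ t]} : Set ℕ).ncard : ℝ) =
      (((Finset.Icc 1 N).filter (fun n => ∃ a ∈ A, x n ≡ a [ZMOD 2 ^ t])).card : ℝ) := by
    intro N t A
    rw [ncard_eq]
  unfold Spread Pool.Agent.Y967.CM.Spread
  simp only [key]

theorem almost_of {P : ℕ → Prop} (h : ∀ ε : ℝ, 0 < ε → ∀ᶠ N : ℕ in atTop,
    (({n | 1 ≤ n ∧ n ≤ N ∧ ¬ P n} : Set ℕ).ncard : ℝ) ≤ ε * N) : AlmostAll P := by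
  unfold AlmostAll
  rw [Metric.tendsto_nhds]
  intro ε hε
  filter_upwards [h (ε / 2) (by positivity), eventually_gt_atTop 0] with N h1 h2
  have hN : (0 : ℝ) < N := by exact_mod_cast h2
  rw [Real.dist_eq, sub_zero, abs_of_nonneg (by positivity), div_lt_iff₀ hN]
  nlinarith

theorem AlmostAll.ev {P : ℕ → Prop} (h : AlmostAll P) {ε : ℝ} (hε : 0 < ε) : ∀ᶠ N : ℕ in atTop,
    (({n | 1 ≤ n ∧ n ≤ N ∧ ¬ P n} : Set ℕ).ncard : ℝ) ≤ ε * N := by
  unfold AlmostAll at h
  rw [Metric.tendsto_nhds] at h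
  filter_upwards [h ε hε, eventually_gt_atTop 0] with N h1 h2
  have hN : (0 : ℝ) < N := by exact_mod_cast h2
  rw [Real.dist_eq, sub_zero, abs_of_nonneg (by positivity), div_lt_iff₀ hN] at h1
  exact h1.le

theorem AlmostAll.mono {P Q : ℕ → Prop} (h : AlmostAll P) (hPQ : ∀ n, P n → Q n) : AlmostAll Q := by
  classical
  unfold AlmostAll at *
  refine squeeze_zero (fun N => by positivity) (fun N => ?_) h
  apply div_le_div_of_nonneg_right _ (Nat.cast_nonneg N)
  rw [ncard_eq, ncard_eq]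
  have : ((Finset.Icc 1 N).filter (fun n => ¬ Q n)) ⊆ ((Finset.Icc 1 N).filter (fun n => ¬ P n)) := by
    intro n hn
    rw [Finset.mem_filter] at hn ⊢
    exact ⟨hn.1, fun h => hn.2 (hPQ n h)⟩
  exact_mod_cast Finset.card_le_card this

theorem AlmostAll.and {P Q : ℕ → Prop} (h : AlmostAll P) (h' : AlmostAll Q) :
    AlmostAll (fun n => P n ∧ Q n) := by
  classical
  unfold AlmostAll at *
  have h3 := h.add h'
  rw [add_zero] at h3
  refine squeeze_zero (fun N => by positivity) (fun N => ?_) h3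
  rw [← add_div]
  apply div_le_div_of_nonneg_right _ (Nat.cast_nonneg N)
  rw [ncard_eq, ncard_eq, ncard_eq]
  have h4 : ((Finset.Icc 1 N).filter (fun n => ¬ (P n ∧ Q n))) ⊆
      ((Finset.Icc 1 N).filter (fun n => ¬ P n)) ∪ ((Finset.Icc 1 N).filter (fun n => ¬ Q n)) := by
    intro n hn
    rw [Finset.mem_filter] at hn
    rw [Finset.mem_union, Finset.mem_filter, Finset.mem_filter]
    by_contra hcon
    rw [not_or] at hcon
    apply hn.2
    refine ⟨?_, ?_⟩
    · by_contra h5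
      exact hcon.1 ⟨hn.1, h5⟩
    · by_contra h5
      exact hcon.2 ⟨hn.1, h5⟩
  have h5 := (Finset.card_le_card h4).trans (Finset.card_union_le _ _)
  exact_mod_cast h5

theorem almost_large {P : ℕ → Prop} (h : ∀ᶠ n : ℕ in atTop, P n) : AlmostAll P := by
  classical
  obtain ⟨N₁, hN₁⟩ := eventually_atTop.1 h
  unfold AlmostAll
  have h2 : Tendsto (fun N : ℕ => (N₁ : ℝ) / N) atTop (𝓝 0) := tendsto_const_div_atTop_nhds_zero_nat _
  refine squeeze_zero (fun N => by positivity) (fun N => ?_) h2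
  apply div_le_div_of_nonneg_right _ (Nat.cast_nonneg N)
  rw [ncard_eq]
  have h4 : ((Finset.Icc 1 N).filter (fun n => ¬ P n)) ⊆ Finset.range N₁ := by
    intro n hn
    rw [Finset.mem_filter] at hn
    rw [Finset.mem_range]
    by_contra hcon
    exact hn.2 (hN₁ n (not_lt.1 hcon))
  have h5 := Finset.card_le_card h4
  rw [Finset.card_range] at h5
  exact_mod_cast h5

theorem sq_one {b : ℤ} (h : b ^ 2 = 1) : b = 1 ∨ b = -1 := by
  have h2 : (b - 1) * (b + 1) = 0 := by linear_combination h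
  rcases mul_eq_zero.1 h2 with h3 | h3
  · left; omega
  · right; omega

theorem dat_all {x : ℕ → ℕ} (hx : Spread (fun n => (x n : ℤ))) {κ : ℝ} (hκ : 0 < κ) :
    AlmostAll (fun n => Dat κ x n ∧ 1 ≤ kap n) := by
  classical
  obtain ⟨δ, hδ, h⟩ := ((spread_iff _).1 hx).spr
  have h1 : AlmostAll (Dat κ x) := by
    apply almost_of
    intro ε hε
    filter_upwards [dat_small hδ h hκ hε] with N hN
    rw [ncard_eq]
    refine le_trans (le_of_eq ?_) hN
    congr!
  exact h1.and (almost_large (L.kap_tendsto.eventually_ge_atTop 1))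

theorem spr_exp3 {e : ℕ → ℕ} (he : Spread (fun n => (e n : ℤ))) {a : ℕ} (ha : 1 ≤ a) :
    Spread (fun n => ((3 ^ e n * a : ℕ) : ℤ)) := by
  obtain ⟨δ, hδ, h⟩ := ((spread_iff _).1 he).spr
  have ha' : (a : ℤ) ≠ 0 := by exact_mod_cast (by omega : a ≠ 0)
  have h1 := spr_exp h (a := (a : ℤ)) (b := 3) ha' (by norm_num) (by norm_num)
  have e1 : (fun n => ((3 ^ e n * a : ℕ) : ℤ)) = fun n => (a : ℤ) * 3 ^ e n := by
    funext n; push_cast; ring
  rw [e1]
  exact (spread_iff _).2 (h1.spread hδ)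

theorem l_eq (n : ℕ) : l n = L.l n := rfl

/-- the gap theorem for one sequence of values -/
theorem gap_of {u : ℕ → ℕ∞} (hu : AlmostAll (fun m => ∀ j : ℕ, (j : ℝ) ≤ W m → u (m + j) ≤ u m + j))
    {G V : ℕ → ℝ} {η : ℝ} (hη : 0 < η) (hG : ∀ᶠ m : ℕ in atTop, G m + 1 + η ≤ G (m + 1)) (hV : Small V) :
    AlmostAll (fun m => ¬ ∃ k : ℕ, u m = k ∧ G m < k ∧ (k : ℝ) ≤ G (m + ⌈V m⌉₊)) := by
  classical
  apply almost_of
  intro ε hε
  have hv : ∀ ε : ℝ, 0 < ε → ∀ᶠ m : ℕ in atTop, (⌈V m⌉₊ : ℝ) ≤ ε * kap m := by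
    intro ε hε
    filter_upwards [hV (ε / 2) (by positivity), L.kap_tendsto.eventually_ge_atTop (2 / ε),
      L.kap_tendsto.eventually_ge_atTop 0] with m h1 h2 h3
    have h4 : 1 ≤ ε / 2 * kap m := by
      rw [div_le_iff₀ hε] at h2
      linarith
    rcases le_or_gt 0 (V m) with h5 | h5
    · have h6 := (Nat.ceil_lt_add_one h5).le
      have h7 : V m ≤ ε / 2 * kap m := h1
      linarith
    · rw [Nat.ceil_eq_zero.2 h5.le]
      push_cast
      positivity
  have hG' : ∀ᶠ m : ℕ in atTop, G m + (1 + η) ≤ G (m + 1) := by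
    filter_upwards [hG] with m h
    linarith
  have h1 := L.gap (u := u) (G := G) hη hG' hv (fun ε hε => by
    filter_upwards [hu.ev hε] with N hN
    rw [ncard_eq] at hN
    refine le_trans (le_of_eq ?_) hN
    congr!) hε
  filter_upwards [h1] with N hN
  rw [ncard_eq]
  refine le_trans (le_of_eq ?_) hN
  simp only [not_not]

/-- (1) The sequences `n` and the primes (`Nat.nth Nat.Prime n`) are spread; if `x` is spread then so is
`f (x n)` for every nonconstant polynomial `f` with integer coefficients, and if the sequence of natural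
numbers `e` is spread then so is `a b ^ (e n)` for all `a ≠ 0` and odd `b ≠ 1, -1`.
(2) Let the sequence of natural numbers `x` be spread. For almost all `n`, if the trajectory of a natural
number `z` is at time `k` within distance `exp (W n)` of one of the numbers `3 ^ i x n`, `i ≤ W n`, then
`l z + i = k + l (x n)` (both may be infinite).
(3) Let `a ≥ 1` and let the sequence of natural numbers `e` be spread. For almost all `n`, with `m = e n`,
for all `j ≤ W n`: `l (3 ^ (m + j) a) + j = l (3 ^ m a)` and `l (2 ^ (m + j) a - 1) = l (2 ^ m a - 1) + j`.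
(4) Let `a ≥ 1`, let `G` be a function with `G (m + 1) ≥ G m + 1 + η` for a fixed `η > 0` and all large
`m`, and let `V m = o(W m)`. For almost all `m`, for both numbers `y = 2 ^ m a - 1` and `y = 3 ^ m a`:
`l y ≤ G m` or `l y > G (m + ⌈V m⌉)`. (5) In particular for almost all `m`, for both numbers:
`l y ≤ y` or `l y > 2 ^ (V m) y`. -/
theorem result :
    (Spread (fun n => (n : ℤ)) ∧ Spread (fun n => ((Nat.nth Nat.Prime n : ℕ) : ℤ)) ∧
      (∀ x : ℕ → ℤ, Spread x → ∀ f : Polynomial ℤ, 1 ≤ f.natDegree → Spread (fun n => f.eval (x n))) ∧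
      (∀ e : ℕ → ℕ, Spread (fun n => (e n : ℤ)) → ∀ a b : ℤ, a ≠ 0 → b % 2 = 1 → b ≠ 1 → b ≠ -1 →
        Spread (fun n => a * b ^ e n))) ∧
    (∀ x : ℕ → ℕ, Spread (fun n => (x n : ℤ)) → AlmostAll (fun n => ∀ z k i : ℕ, (i : ℝ) ≤ W n →
        |((C^[k] z : ℕ) : ℝ) - 3 ^ i * x n| ≤ Real.exp (W n) → l z + i = k + l (x n))) ∧
    (∀ (a : ℕ) (e : ℕ → ℕ), 1 ≤ a → Spread (fun n => (e n : ℤ)) →
      AlmostAll (fun n => ∀ m j : ℕ, m = e n → (j : ℝ) ≤ W n →
        l (3 ^ (m + j) * a) + j = l (3 ^ m * a) ∧ l (2 ^ (m + j) * a - 1) = l (2 ^ m * a - 1) + j)) ∧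
    (∀ (a : ℕ) (G V : ℕ → ℝ) (η : ℝ), 1 ≤ a → 0 < η → (∀ᶠ m : ℕ in atTop, G m + 1 + η ≤ G (m + 1)) →
      Small V → AlmostAll (fun m => ∀ y : ℕ, y = 2 ^ m * a - 1 ∨ y = 3 ^ m * a →
        ∀ k : ℕ, l y = k → (k : ℝ) ≤ G m ∨ G (m + ⌈V m⌉₊) < k)) ∧
    (∀ (a : ℕ) (V : ℕ → ℝ), 1 ≤ a → Small V →
      AlmostAll (fun m => ∀ y : ℕ, y = 2 ^ m * a - 1 ∨ y = 3 ^ m * a →
        ∀ k : ℕ, l y = k → k ≤ y ∨ (2 : ℝ) ^ V m * y < k)) := by
  classical
  have hid : Spread (fun n => (n : ℤ)) := (spread_iff _).2 (spr_id.spread one_pos)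
  have hpr : Spread (fun n => ((Nat.nth Nat.Prime n : ℕ) : ℤ)) :=
    (spread_iff _).2 (spr_prime.spread (by norm_num))
  have part3 : ∀ (a : ℕ) (e : ℕ → ℕ), 1 ≤ a → Spread (fun n => (e n : ℤ)) →
      AlmostAll (fun n => ∀ m j : ℕ, m = e n → (j : ℝ) ≤ W n →
        l (3 ^ (m + j) * a) + j = l (3 ^ m * a) ∧
          l (2 ^ (m + j) * a - 1) = l (2 ^ m * a - 1) + j) := by
    intro a e ha he
    refine (dat_all (spr_exp3 he ha) one_pos).mono (fun n hn m j hm hj => ?_)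
    obtain ⟨h1, h2⟩ := L.mers_l ha hn.1 hn.2 hj
    obtain ⟨h3, h4⟩ := L.mers_l ha hn.1 hn.2 (j := 0) (by rw [Nat.cast_zero]; linarith [hn.2])
    rw [hm]
    refine ⟨h1, ?_⟩
    rw [Nat.add_zero, Nat.cast_zero, add_zero] at h4
    rw [l_eq, l_eq, h2, h4]
    ring
  have step : ∀ (a : ℕ) (V G : ℕ → ℝ) (η : ℝ), 1 ≤ a → 0 < η →
      (∀ᶠ m : ℕ in atTop, G m + 1 + η ≤ G (m + 1)) → Small V →
      AlmostAll (fun m => ∀ k : ℕ, l (2 ^ m * a - 1) = k → (k : ℝ) ≤ G m ∨ G (m + ⌈V m⌉₊) < k) ∧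
      AlmostAll (fun m => ∀ k : ℕ, l (3 ^ m * a) = k → (k : ℝ) ≤ G m ∨ G (m + ⌈V m⌉₊) < k) := by
    intro a V G η ha hη hG hV
    have h := part3 a id ha hid
    have g1 : AlmostAll (fun m => ∀ j : ℕ, (j : ℝ) ≤ W m →
        l (2 ^ (m + j) * a - 1) ≤ l (2 ^ m * a - 1) + j) :=
      h.mono fun m hm j hj => ((hm m j rfl hj).2).le
    have g2 : AlmostAll (fun m => ∀ j : ℕ, (j : ℝ) ≤ W m → l (3 ^ (m + j) * a) ≤ l (3 ^ m * a) + j) :=
      h.mono fun m hm j hj => by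
        have h1 := (hm m j rfl hj).1
        rw [← h1]
        exact le_self_add.trans le_self_add
    refine ⟨(gap_of (u := fun m => l (2 ^ m * a - 1)) g1 hη hG hV).mono ?_,
      (gap_of (u := fun m => l (3 ^ m * a)) g2 hη hG hV).mono ?_⟩
    · intro m hm k hk
      by_contra hcon
      rw [not_or, not_le, not_lt] at hcon
      exact hm ⟨k, hk, hcon.1, hcon.2⟩
    · intro m hm k hk
      by_contra hcon
      rw [not_or, not_le, not_lt] at hcon
      exact hm ⟨k, hk, hcon.1, hcon.2⟩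
  refine ⟨⟨hid, hpr, ?_, ?_⟩, fun x hx => ?_, part3, ?_, ?_⟩
  · intro x hx f hf
    exact (spread_iff _).2 (((spread_iff x).1 hx).poly hf)
  · intro e he a b ha hb h1 h2
    have h3 : b ^ 2 ≠ 1 := by
      intro h
      rcases sq_one h with h | h
      · exact h1 h
      · exact h2 h
    obtain ⟨δ, hδ, h⟩ := ((spread_iff _).1 he).spr
    exact (spread_iff _).2 ((spr_exp h ha hb h3).spread hδ)
  · refine (dat_all hx one_pos).mono (fun n hn z k i hi hz => ?_)
    obtain ⟨h1, h2, -⟩ := L.l_near hn.1 hn.2 (z := C^[k] z) (i := i) hi hz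
    have h3 : L.l z = k + L.l (C^[k] z) := L.l_pass (k := k) (z := z) rfl h2
    rw [l_eq, l_eq, h3, ← h1]
    ring
  · intro a G V η ha hη hG hV
    obtain ⟨g1, g2⟩ := step a V G η ha hη hG hV
    refine (g1.and g2).mono ?_
    rintro m ⟨h1, h2⟩ y (rfl | rfl) k hk
    · exact h1 k hk
    · exact h2 k hk
  · intro a V ha hV
    have ha1 : (1 : ℝ) ≤ a := by exact_mod_cast ha
    obtain ⟨g1, -⟩ := step a V (fun m => 2 ^ m * a - 1) 1 ha one_pos (by
      filter_upwards [eventually_ge_atTop 1] with m hm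
      obtain ⟨i, rfl⟩ := Nat.exists_eq_add_of_le hm
      have h1 : (1 : ℝ) ≤ 2 ^ i := one_le_pow₀ (by norm_num)
      have e1 : (2 : ℝ) ^ (1 + i) = 2 * 2 ^ i := by ring
      have e2 : (2 : ℝ) ^ (1 + i + 1) = 4 * 2 ^ i := by ring
      rw [e1, e2]
      nlinarith) hV
    obtain ⟨-, g2⟩ := step a V (fun m => 3 ^ m * a) 1 ha one_pos (by
      filter_upwards with m
      have h1 : (1 : ℝ) ≤ 3 ^ m := one_le_pow₀ (by norm_num)
      rw [pow_succ]
      nlinarith) hV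
    refine (g1.and g2).mono ?_
    rintro m ⟨h1, h2⟩ y hy k hk
    have hVc : (2 : ℝ) ^ V m ≤ 2 ^ ⌈V m⌉₊ := by
      rw [← Real.rpow_natCast]
      exact Real.rpow_le_rpow_of_exponent_le (by norm_num) (Nat.le_ceil _)
    rcases hy with rfl | rfl
    · have hge : 1 ≤ 2 ^ m * a := Nat.one_le_iff_ne_zero.2 (by positivity)
      have hcast : ((2 ^ m * a - 1 : ℕ) : ℝ) = 2 ^ m * a - 1 := by push_cast [Nat.cast_sub hge]; ring
      rcases h1 k hk with h3 | h3
      · left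
        have h4 : (k : ℝ) ≤ ((2 ^ m * a - 1 : ℕ) : ℝ) := by rw [hcast]; exact h3
        exact_mod_cast h4
      · right
        refine lt_of_le_of_lt ?_ h3
        rw [hcast]
        have h5 : (0 : ℝ) ≤ 2 ^ m * a - 1 := by
          have : (1 : ℝ) ≤ 2 ^ m * a := by exact_mod_cast hge
          linarith
        have h6 : (1 : ℝ) ≤ 2 ^ ⌈V m⌉₊ := one_le_pow₀ (by norm_num)
        calc (2 : ℝ) ^ V m * (2 ^ m * a - 1) ≤ 2 ^ ⌈V m⌉₊ * (2 ^ m * a - 1) :=
              mul_le_mul_of_nonneg_right hVc h5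
          _ ≤ 2 ^ (m + ⌈V m⌉₊) * a - 1 := by
              rw [pow_add]
              nlinarith
    · rcases h2 k hk with h3 | h3
      · left
        have h4 : (k : ℝ) ≤ ((3 ^ m * a : ℕ) : ℝ) := by push_cast; exact h3
        exact_mod_cast h4
      · right
        refine lt_of_le_of_lt ?_ h3
        push_cast
        have h6 : (2 : ℝ) ^ ⌈V m⌉₊ ≤ 3 ^ ⌈V m⌉₊ := pow_le_pow_left₀ (by norm_num) (by norm_num) _
        calc (2 : ℝ) ^ V m * (3 ^ m * a) ≤ 3 ^ ⌈V m⌉₊ * (3 ^ m * a) :=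
              mul_le_mul_of_nonneg_right (hVc.trans h6) (by positivity)
          _ = 3 ^ (m + ⌈V m⌉₊) * a := by rw [pow_add]; ring

end Pool.Agent.Results.MP_e43fce_nt.MersenneExceptions
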