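import Pool.Agent.Y965.PL.Col

set_option autoImplicit false

/-!
# The total stopping time of the Collatz function along the sequences `⌊n ^ c⌋`

Let `1 < c < 101/100`. Along the sparse sequence `⌊n ^ c⌋` the exceptions `m` to the inequality
`l(m) ≤ m` have a natural density, which is the density `1 - δ` of the integers with `l(m) = ∞`. In
particular, if the inequality holds for almost all terms of this one sequence (even only along a sequence
of cut-offs `X`), then every positive integer reaches `1`. Also the limit law and the law of large numbers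
for `l` hold along the sequence, and every bounded function of `l` has the same averages as over all
integers with a power saving error term which is uniform in the function.

Method: a dispersion argument. With `2 ^ t ≈ N ^ 0.65` the number `l(m)` is for `m ∈ (N ^ 0.99, N]` a
function of `T^t(m)` (`T` the shortcut function) and the number of odd terms before it; the fibres of this
pair of functions have about `N ^ 0.13` elements, and the correlations of the phases `k m ^ (1 / c)` over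
the pairs `m, m + h` of elements of one fibre, which depend on `m` modulo `2 ^ t` only, are small by the
inequality of Kusmin and Landau.
-/

namespace Pool.Agent.Results.MP_e43fce_nt.PiatetskiShapiroLevels

open Filter Topology

/-- the Collatz function -/
def C (n : ℕ) : ℕ := if n % 2 = 0 then n / 2 else 3 * n + 1

/-- the total stopping time `l(n)`, the least `k ≥ 0` with `C^k(n) = 1`, and `⊤ = ∞` if there is none -/
noncomputable def l (n : ℕ) : ℕ∞ := sInf {k : ℕ∞ | ∃ j : ℕ, C^[j] n = 1 ∧ k = j}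

/-- the number of odd terms among `n, C n, ..., C^(k-1) n` -/
def odds (k n : ℕ) : ℕ := ((Finset.range k).filter fun i => C^[i] n % 2 = 1).card

/-- `min (l(n), t)` -/
noncomputable def truncated (t : ℝ) (n : ℕ) : ℝ := if l n = ⊤ then t else min ((l n).toNat : ℝ) t

/-- the terms `⌊n ^ c⌋` of the sequence -/
noncomputable def ps (c : ℝ) (n : ℕ) : ℕ := ⌊(n : ℝ) ^ c⌋₊

/-- the positive integers with the property `P` have the natural density `d` -/
def HasDensity (P : ℕ → Prop) (d : ℝ) : Prop :=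
  Tendsto (fun N : ℕ => ({n : ℕ | 1 ≤ n ∧ n ≤ N ∧ P n}.ncard : ℝ) / N) atTop (𝓝 d)

/-- `3 / log (4/3) * log n + x * log 6 * √(2 log n / (log (4/3))^3)` -/
noncomputable def bound (x : ℝ) (n : ℕ) : ℝ :=
  3 / Real.log (4 / 3) * Real.log n
    + x * (Real.log 6 * Real.sqrt (2 * Real.log n / Real.log (4 / 3) ^ 3))

/-- The distribution function of the standard normal law. -/
noncomputable def Phi (x : ℝ) : ℝ :=
  ProbabilityTheory.cdf (ProbabilityTheory.gaussianReal 0 1) x

/-- `l(n)` is finite, at most `bound x n` and congruent to `a` modulo `m`, and the number of odd terms of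
the trajectory before `1` is reached is congruent to `b` modulo `m`. -/
def Level (m : ℕ) (a b : ℤ) (x : ℝ) (n : ℕ) : Prop :=
  ∃ t : ℕ, l n = t ∧ (t : ℝ) ≤ bound x n ∧ (t : ℤ) ≡ a [ZMOD m] ∧ (odds t n : ℤ) ≡ b [ZMOD m]

/-- `n` is an exception to the inequality `l(n) ≤ n`. -/
def Exceptional (n : ℕ) : Prop := (n : ℕ∞) < l n

open Pool.Agent.H499R2.HL Pool.Agent.Y965.PL

theorem C_eq : C = Pool.Agent.H499R2.ND.CC := by funext a; rfl

theorem l_eq {n t : ℕ} (h : Ts n t) : l n = t := by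
  unfold l
  rw [C_eq]
  apply le_antisymm
  · exact sInf_le ⟨t, h.1, rfl⟩
  · refine le_sInf ?_
    rintro j ⟨i, hi, rfl⟩
    have : t ≤ i := by
      by_contra hlt
      exact h.2 i (by omega) hi
    exact_mod_cast this

theorem l_top {n : ℕ} (h : ¬ ∃ k, H k n) : l n = ⊤ := by
  unfold l
  rw [C_eq]
  have : {k : ℕ∞ | ∃ j : ℕ, Pool.Agent.H499R2.ND.CC^[j] n = 1 ∧ k = j} = ∅ := by
    rw [Set.eq_empty_iff_forall_notMem]
    rintro k ⟨j, hj, _⟩
    exact h (CC_ex.1 ⟨j, hj⟩)
  rw [this, sInf_empty]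

theorem l_H {n k : ℕ} (h : H k n) : l n = ((k + Pool.Agent.H499R2.LT.odn k n : ℕ) : ℕ∞) :=
  l_eq (Ts_of_H h).1

theorem l_ne_top {n : ℕ} : l n ≠ ⊤ ↔ ∃ k, H k n := by
  constructor
  · intro h
    by_contra hcon
    exact h (l_top hcon)
  · rintro ⟨k, hk⟩
    rw [l_H hk]
    exact ENat.natCast_ne_top _

theorem l_iff {n t : ℕ} : l n = t ↔ Ts n t := by
  constructor
  · intro h
    obtain ⟨k, hk⟩ := l_ne_top.1 (show l n ≠ ⊤ by rw [h]; exact ENat.natCast_ne_top t)
    have h1 := l_H hk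
    rw [h] at h1
    have h2 : t = k + Pool.Agent.H499R2.LT.odn k n := by exact_mod_cast h1
    rw [h2]; exact (Ts_of_H hk).1
  · exact l_eq

theorem level_iff (m : ℕ) (a b : ℤ) (x : ℝ) (n : ℕ) : Level m a b x n ↔
    (True ∧ Lv valL (clsL m a b) (th (3 / Real.log (4 / 3)) bL x) n) := by
  rw [← level_iff_C]
  unfold Level
  refine exists_congr fun t => ?_
  rw [l_iff]
  have e : odds t n = Pool.Agent.H499R2.LT.ocn t n := by
    unfold odds Pool.Agent.H499R2.LT.ocn
    rw [C_eq]
  rw [e]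
  constructor
  · rintro ⟨h1, h2, h3, h4⟩; exact ⟨h2, h1, h3, h4⟩
  · rintro ⟨h1, h2, h3, h4⟩; exact ⟨h2, h1, h3, h4⟩

theorem count_ind (P : ℕ → Prop) (X : ℕ) (s : ℕ → ℕ) :
    ({n : ℕ | 1 ≤ n ∧ n ≤ X ∧ P (s n)}.ncard : ℝ) = ∑ n ∈ Finset.Icc 1 X, ind P (s n) := by
  classical
  unfold ind
  rw [Finset.sum_boole]
  have e : {n : ℕ | 1 ≤ n ∧ n ≤ X ∧ P (s n)} = ((Finset.Icc 1 X).filter fun n => P (s n) : Finset ℕ) := by
    ext n
    simp only [Set.mem_ofPred_eq, Finset.coe_filter, Finset.mem_Icc, and_assoc]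
  rw [e, Set.ncard_coe_finset]

theorem along_of {c : ℝ} {P Q : ℕ → Prop} {d : ℝ} (h : MnS (Pool.Agent.Y965.PL.ps c) (ind Q) d)
    (hPQ : ∀ n, P n ↔ Q n) : HasDensity (fun n => P (ps c n)) d := by
  unfold HasDensity
  unfold MnS at h
  refine h.congr fun X => ?_
  rw [count_ind P X (ps c)]
  congr 1
  apply Finset.sum_congr rfl
  intro n _
  exact ind_congr (hPQ _).symm

theorem log_small (B : ℝ) : ∀ᶠ n : ℕ in atTop, B * Real.log n < n := by
  have h1 : Tendsto (fun x : ℝ => Real.log x / x) atTop (𝓝 0) := by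
    have := Real.isLittleO_log_id_atTop.tendsto_div_nhds_zero
    exact this
  have h2 := (h1.comp tendsto_natCast_atTop_atTop).const_mul (|B| + 1)
  rw [mul_zero] at h2
  filter_upwards [h2.eventually (gt_mem_nhds zero_lt_one), eventually_ge_atTop 1] with n h3 h4
  have hn : (0 : ℝ) < n := by exact_mod_cast h4
  have h5 : (|B| + 1) * Real.log n < n := by
    have h6 : (|B| + 1) * (Real.log n / n) < 1 := h3
    rw [← mul_div_assoc, div_lt_one hn] at h6
    exact h6
  have h7 : 0 ≤ Real.log (n : ℝ) := Real.log_natCast_nonneg n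
  have h8 := le_abs_self B
  nlinarith

/-- THE TOTAL STOPPING TIME `l` ALONG `⌊n ^ c⌋`. The positive integers with `l(n) < ∞` have a positive
natural density `δ`, and `δ = 1` if and only if all are of this kind. Let `1 < c < 101/100`.

(1) The `n` for which `⌊n ^ c⌋` is an exception to `l(m) ≤ m` have natural density `1 - δ`.

(2) If for infinitely many `X` the inequality `l(m) ≤ m` holds at `m = ⌊n ^ c⌋` for all but `o(X)` of the
`n ≤ X`, then `l(n) < ∞` for all `n ≥ 1`.

(3) (Uniform transfer.) For every function `φ`, bounded by `1`, the sum of `φ(l(⌊n ^ c⌋))` over `n ≤ X` is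
the sum of `((m + 1) ^ (1 / c) - m ^ (1 / c)) φ(l(m))` over all `m ≤ X ^ c`, up to `K X ^ (1 - 1 / 4000)`,
with `K` independent of `φ` and `X`.

(4) The `n` for which `l(⌊n ^ c⌋)` is finite, `≡ a` modulo `m` and at most `bound x`, and for which the
number of odd terms is `≡ b` modulo `m`, have natural density `δ Phi(x) / m ^ 2`.

(5) For `Λ > 3 c / log (4/3)` the mean value of `min (l(⌊n ^ c⌋), Λ log X)` over `n ≤ X`, divided by
`log X`, tends to `δ * 3 c / log (4/3) + (1 - δ) Λ`. -/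
theorem result : ∃ δ : ℝ, 0 < δ ∧ δ ≤ 1 ∧ (δ = 1 ↔ ∀ n : ℕ, 1 ≤ n → l n ≠ ⊤) ∧
    HasDensity (fun n => l n ≠ ⊤) δ ∧
    ∀ c : ℝ, 1 < c → c < 101 / 100 →
    HasDensity (fun n => Exceptional (ps c n)) (1 - δ) ∧
    (∀ ψ : ℕ → ℝ, Tendsto ψ atTop (𝓝 0) →
      (∃ᶠ X : ℕ in atTop, ({n : ℕ | 1 ≤ n ∧ n ≤ X ∧ Exceptional (ps c n)}.ncard : ℝ) ≤ ψ X * X) →
      ∀ n : ℕ, 1 ≤ n → l n ≠ ⊤) ∧
    (∃ K : ℝ, ∀ φ : ℕ∞ → ℝ, (∀ t, |φ t| ≤ 1) → ∀ X : ℕ, 1 ≤ X →
      |∑ n ∈ Finset.Icc 1 X, φ (l (ps c n)) -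
        ∑ m ∈ Finset.Icc 1 (ps c X), (((m : ℝ) + 1) ^ (1 / c) - (m : ℝ) ^ (1 / c)) * φ (l m)| ≤
          K * (X : ℝ) ^ (1 - 1 / 4000 : ℝ)) ∧
    (∀ (m : ℕ) (a b : ℤ) (x : ℝ), 1 ≤ m → HasDensity (fun n => Level m a b x (ps c n)) (δ * Phi x / m ^ 2)) ∧
    ∀ Λ : ℝ, 3 * c / Real.log (4 / 3) < Λ →
      Tendsto (fun X : ℕ => (∑ n ∈ Finset.Icc 1 X, truncated (Λ * Real.log X) (ps c n)) / (X * Real.log X))
        atTop (𝓝 (δ * (3 * c / Real.log (4 / 3)) + (1 - δ) * Λ)) := by
  classical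
  obtain ⟨δ, hδ, h2, h3⟩ := nat2
  have hν := nu_pos'
  have hone : δ = 1 ↔ ∀ n : ℕ, 1 ≤ n → l n ≠ ⊤ := by
    rw [h2]
    refine forall₂_congr fun n _ => ?_
    rw [l_ne_top, CC_ex]
  refine ⟨δ, hδ.pos, hδ.le, hone, ?_, fun c hc hc' => ?_⟩
  · have h4 : Pool.Agent.H499R2.ND.Dn (fun n => l n ≠ ⊤) δ :=
      Pool.Agent.H499R2.LT.Dn_iff (fun n _ => by rw [l_ne_top, CC_ex]) h3
    exact h4
  obtain ⟨K, hK, hT⟩ := transfer hc hc'
  obtain ⟨hLaw, hJ⟩ := psL hc hc' hK hT hδ
  have hE : HasDensity (fun n => Exceptional (ps c n)) (1 - δ) := by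
    have h1 : MnS (Pool.Agent.Y965.PL.ps c) (fun m => 1 - ind (fun n => True ∧ ∃ k, H k n) m) (1 - δ) :=
      (MnS_const _ 1).sub hLaw.fin
    have h4 := bad_zero (fun n => le_ps hc.le n) bL_pos hLaw one_pos
    obtain ⟨m0, hm0⟩ := (log_small (3 / Real.log (4 / 3) + 1)).exists_forall_of_atTop
    have h5 : MnS (Pool.Agent.Y965.PL.ps c) (ind Exceptional) (1 - δ) := by
      refine MnS_close (fun n => le_ps hc.le n) h1 h4 zero_le_two (fun m => ?_) (fun m => ind_nonneg _ _) (m0 := m0) ?_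
      · have a1 := ind_nonneg Exceptional m
        have a2 := ind_le_one Exceptional m
        have a3 := ind_nonneg (fun n => True ∧ ∃ k, H k n) m
        have a4 := ind_le_one (fun n => True ∧ ∃ k, H k n) m
        rw [abs_le]; constructor <;> linarith
      · intro m hm
        by_cases hf : ∃ k, H k m
        · rw [ind_pos (P := fun n => True ∧ ∃ k, H k n) ⟨trivial, hf⟩, sub_self, sub_zero,
            abs_of_nonneg (ind_nonneg _ _)]
          apply ind_mono
          intro hex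
          obtain ⟨k, hk⟩ := hf
          refine ⟨trivial, k, hk, ?_⟩
          unfold Exceptional at hex
          rw [l_H hk] at hex
          have h6 : m < k + Pool.Agent.H499R2.LT.odn k m := by exact_mod_cast hex
          have h7 : (m : ℝ) < ((k + Pool.Agent.H499R2.LT.odn k m : ℕ) : ℝ) := by exact_mod_cast h6
          have h8 := hm0 m hm
          have h9 : valL k (Pool.Agent.H499R2.LT.odn k m) = ((k + Pool.Agent.H499R2.LT.odn k m : ℕ) : ℝ) := rfl
          rw [h9]
          apply lt_of_lt_of_le _ (le_abs_self _)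
          linarith
        · rw [ind_neg (P := fun n => True ∧ ∃ k, H k n) (fun h => hf h.2), ind_pos (P := Exceptional) (by
            unfold Exceptional
            rw [l_top hf]
            exact ENat.natCast_lt_top m), sub_zero, sub_self, abs_zero]
          exact ind_nonneg _ _
    exact along_of (P := Exceptional) h5 (fun _ => Iff.rfl)
  refine ⟨hE, ?_, ⟨K, fun φ hφ X hX => ?_⟩, ?_, ?_⟩
  · intro ψ hψ hfr
    rw [← hone]
    by_contra hne
    have hlt : 0 < 1 - δ := by
      have := lt_of_le_of_ne hδ.le hne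
      linarith
    have e1 : ∀ᶠ X : ℕ in atTop, ψ X < (1 - δ) / 2 := hψ.eventually (gt_mem_nhds (by positivity))
    have e2 : ∀ᶠ X : ℕ in atTop, (1 - δ) / 2 < ({n : ℕ | 1 ≤ n ∧ n ≤ X ∧ Exceptional (ps c n)}.ncard : ℝ) / X :=
      hE.eventually (lt_mem_nhds (by linarith))
    obtain ⟨X, g1, g2, g3, g4⟩ := (hfr.and_eventually (e1.and (e2.and (eventually_ge_atTop 1)))).exists
    have hX : (0 : ℝ) < X := by exact_mod_cast g4
    rw [lt_div_iff₀ hX] at g3
    nlinarith
  · have h1 := TS_congr (G := fun z => φ (l z.toNat))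
      (hT _ (async_Fg (g := fun k o => φ ((k + o : ℕ) : ℕ∞)) (g0 := φ ⊤) (fun _ _ => hφ _) (hφ _)))
      (fun x => hφ _) (fun m => by
        simp only [Int.toNat_natCast]
        by_cases h : ∃ k, H k m
        · obtain ⟨k, hk⟩ := h
          rw [Fg_H hk, l_H hk]
        · rw [Fg_not h, l_top h])
    have h2 := h1.2 X hX
    have e1 : ∑ n ∈ Finset.Icc 1 X, (fun z : ℤ => φ (l z.toNat)) ⌊(n : ℝ) ^ c⌋ =
        ∑ n ∈ Finset.Icc 1 X, φ (l (ps c n)) := by
      apply Finset.sum_congr rfl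
      intro n _
      have e : (⌊(n : ℝ) ^ c⌋ : ℤ) = ((⌊(n : ℝ) ^ c⌋₊ : ℕ) : ℤ) :=
        (Int.natCast_floor_eq_floor (by positivity)).symm
      dsimp only
      rw [e, Int.toNat_natCast]; rfl
    rw [e1] at h2
    have e2 : ∑ m ∈ Finset.Icc 1 ⌊(X : ℝ) ^ c⌋₊, (fun z : ℤ => φ (l z.toNat)) (m : ℤ) *
        Pool.Agent.Y965.PS.ell (1 / c) m =
        ∑ m ∈ Finset.Icc 1 (ps c X), (((m : ℝ) + 1) ^ (1 / c) - (m : ℝ) ^ (1 / c)) * φ (l m) := by
      apply Finset.sum_congr rfl
      intro m _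
      simp only [Int.toNat_natCast]
      rw [mul_comm]; rfl
    rw [e2] at h2
    exact h2
  · intro m a b x hm
    have h1 := hJ m a b hm x
    have e : Pool.Agent.H499R2.ND.Phi x = Phi x := Pool.Agent.H499R2.ND.phi_cdf x
    rw [e] at h1
    exact along_of (P := Level m a b x) h1 (level_iff m a b x)
  · intro Λ hΛ
    have hf : IsTr valL truncated := by
      constructor
      · intro t n k hk
        unfold truncated
        rw [l_H hk, if_neg (ENat.natCast_ne_top _), ENat.toNat_natCast]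
        rfl
      · intro t n hn
        unfold truncated
        rw [l_top hn, if_pos rfl]
    have e0 : 3 / Real.log (4 / 3) * c = 3 * c / Real.log (4 / 3) := by ring
    have h1 := ps_avg hc (fun _ _ => Nat.cast_nonneg _) (by positivity) bL_pos hLaw hf (Λ := Λ) (by rw [e0]; exact hΛ)
    rw [e0] at h1
    simp only [if_true] at h1
    exact h1

end Pool.Agent.Results.MP_e43fce_nt.PiatetskiShapiroLevels
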